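import Mathlib

/-!
# Deep holes of planar lattices
-/

set_option autoImplicit false

namespace Pool.Agent.Y498.ML

/-- the quadratic form of a pair of vectors of the plane -/
def qf (u w : Fin 2 → ℝ) (m n : ℝ) : ℝ :=
  (m * u 0 + n * w 0) ^ 2 + (m * u 1 + n * w 1) ^ 2

/-- the circumradius of a lattice triangle without obtuse angle: minimal distance -/
theorem circ_min {a b c ρ : ℝ} (hρ : 0 < ρ) (ha : ρ ≤ a) (hc : ρ ≤ c) (hb : 0 ≤ b)
    (hba : 2 * b ≤ a) (hbc : 2 * b ≤ c) :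
    ρ / 3 ≤ a * c * (a + c - 2 * b) / (4 * (a * c - b ^ 2)) := by
  have hpos : 0 < a * c - b ^ 2 := by nlinarith
  rw [le_div_iff₀ (by linarith)]
  rcases le_total a c with h | h
  · have h1 : 0 ≤ 3 * c ^ 2 - a * c - 6 * b * c + 4 * b ^ 2 := by nlinarith
    have h2 : 4 * a * (a * c - b ^ 2) ≤ 3 * (a * c * (a + c - 2 * b)) := by nlinarith
    have h3 : ρ * (a * c - b ^ 2) ≤ a * (a * c - b ^ 2) := by nlinarith
    linarith
  · have h1 : 0 ≤ 3 * a ^ 2 - a * c - 6 * b * a + 4 * b ^ 2 := by nlinarith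
    have h2 : 4 * c * (a * c - b ^ 2) ≤ 3 * (a * c * (a + c - 2 * b)) := by nlinarith
    have h3 : ρ * (a * c - b ^ 2) ≤ c * (a * c - b ^ 2) := by nlinarith
    linarith

/-- the circumcentre of a reduced lattice triangle is at distance at least the circumradius from
all lattice points -/
theorem hole_red {u w : Fin 2 → ℝ} {a b c : ℝ} (ha : a = u 0 ^ 2 + u 1 ^ 2)
    (hc : c = w 0 ^ 2 + w 1 ^ 2) (hb : b = u 0 * w 0 + u 1 * w 1) (hΔ : 0 < a * c - b ^ 2)
    (hb0 : 0 ≤ b) (hba : 2 * b ≤ a) (hbc : 2 * b ≤ c) :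
    ∃ t : Fin 2 → ℝ, ∀ m n : ℤ, a * c * (a + c - 2 * b) / (4 * (a * c - b ^ 2)) ≤
      (t 0 - (m * u 0 + n * w 0)) ^ 2 + (t 1 - (m * u 1 + n * w 1)) ^ 2 := by
  set Δ := a * c - b ^ 2 with hΔd
  set α := c * (a - b) / (2 * Δ) with hα
  set β := a * (c - b) / (2 * Δ) with hβ
  have e1 : α * a + β * b = a / 2 := by
    rw [hα, hβ, div_mul_eq_mul_div, div_mul_eq_mul_div, ← add_div,
      div_eq_div_iff (by positivity) (by norm_num), hΔd]
    ring
  have e2 : α * b + β * c = c / 2 := by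
    rw [hα, hβ, div_mul_eq_mul_div, div_mul_eq_mul_div, ← add_div,
      div_eq_div_iff (by positivity) (by norm_num), hΔd]
    ring
  have e3 : (α * a + β * c) / 2 = a * c * (a + c - 2 * b) / (4 * Δ) := by
    rw [hα, hβ]
    have : Δ ≠ 0 := hΔ.ne'
    field_simp
    ring
  refine ⟨fun i => α * u i + β * w i, fun m n => ?_⟩
  rw [← e3]
  have e4 : (α * u 0 + β * w 0 - (m * u 0 + n * w 0)) ^ 2
      + (α * u 1 + β * w 1 - (m * u 1 + n * w 1)) ^ 2
      = (α - m) ^ 2 * a + 2 * (α - m) * (β - n) * b + (β - n) ^ 2 * c := by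
    rw [ha, hb, hc]; ring
  show (α * a + β * c) / 2 ≤ (α * u 0 + β * w 0 - (m * u 0 + n * w 0)) ^ 2
      + (α * u 1 + β * w 1 - (m * u 1 + n * w 1)) ^ 2
  rw [e4]
  have e5 : (α - m) ^ 2 * a + 2 * (α - m) * (β - n) * b + (β - n) ^ 2 * c
      - (α * a + β * c) / 2 = m * (m - 1) * a + 2 * m * n * b + n * (n - 1) * c := by
    have h1 : α * (α * a + β * b) = α * (a / 2) := by rw [e1]
    have h2 : β * (α * b + β * c) = β * (c / 2) := by rw [e2]
    have h3 : (m : ℝ) * (α * a + β * b) = m * (a / 2) := by rw [e1]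
    have h4 : (n : ℝ) * (α * b + β * c) = n * (c / 2) := by rw [e2]
    linear_combination h1 + h2 - 2 * h3 - 2 * h4
  have h0 : ∀ k : ℤ, (0 : ℝ) ≤ k * (k - 1) := by
    intro k
    rcases le_or_gt k 0 with h | h
    · have : (k : ℝ) ≤ 0 := by exact_mod_cast h
      nlinarith
    · have : (1 : ℝ) ≤ k := by exact_mod_cast h
      nlinarith
  have ha0 : 0 ≤ a := by linarith
  have hc0 : 0 ≤ c := by linarith
  have key : (0 : ℝ) ≤ m * (m - 1) * a + 2 * m * n * b + n * (n - 1) * c := by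
    have h1 : (m : ℝ) * (m - 1) * (2 * b) ≤ m * (m - 1) * a :=
      mul_le_mul_of_nonneg_left hba (h0 m)
    have h2 : (n : ℝ) * (n - 1) * (2 * b) ≤ n * (n - 1) * c :=
      mul_le_mul_of_nonneg_left hbc (h0 n)
    have h3 : (0 : ℝ) ≤ m * (m - 1) + m * n + n * (n - 1) := by
      have : (0 : ℤ) ≤ m * (m - 1) + m * n + n * (n - 1) := by
        by_contra hcon
        push Not at hcon
        have h4 : m ^ 2 + m * n + n ^ 2 < m + n := by nlinarith
        have h5 : 0 ≤ (m - n) ^ 2 := sq_nonneg _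
        have h6 : 3 * (m + n) ^ 2 < 4 * (m + n) := by nlinarith
        have h7 : 0 < m + n := by nlinarith
        have h8 : m + n < 2 := by nlinarith
        have h9 : m + n = 1 := by omega
        have h10 : n = 1 - m := by omega
        subst h10
        have : 0 ≤ m * (m - 1) := by
          rcases le_or_gt m 0 with h | h <;> nlinarith
        nlinarith
      exact_mod_cast this
    nlinarith
  linarith

theorem qf_cauchy (u w : Fin 2 → ℝ) (m n : ℝ) :
    (m * (u 0 * w 1 - u 1 * w 0)) ^ 2 ≤ qf u w m n * (w 0 ^ 2 + w 1 ^ 2) := by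
  unfold qf
  nlinarith [sq_nonneg ((m * u 0 + n * w 0) * w 0 + (m * u 1 + n * w 1) * w 1)]

theorem qf_cauchy' (u w : Fin 2 → ℝ) (m n : ℝ) :
    (n * (u 0 * w 1 - u 1 * w 0)) ^ 2 ≤ qf u w m n * (u 0 ^ 2 + u 1 ^ 2) := by
  unfold qf
  nlinarith [sq_nonneg ((m * u 0 + n * w 0) * u 0 + (m * u 1 + n * w 1) * u 1)]

/-- a lattice basis of least sum of squares -/
theorem reduce {u w : Fin 2 → ℝ} (hD : 0 < u 0 * w 1 - u 1 * w 0) :
    ∃ p q r s : ℤ, (p * s - q * r) ^ 2 = 1 ∧ ∀ p' q' r' s' : ℤ, (p' * s' - q' * r') ^ 2 = 1 →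
      qf u w p q + qf u w r s ≤ qf u w p' q' + qf u w r' s' := by
  set M : ℝ := qf u w 1 0 + qf u w 0 1 with hM
  set D := u 0 * w 1 - u 1 * w 0 with hDd
  have hq0 : ∀ m n : ℝ, 0 ≤ qf u w m n := fun m n => by unfold qf; positivity
  set T : Set (ℤ × ℤ × ℤ × ℤ) := {x | (x.1 * x.2.2.2 - x.2.1 * x.2.2.1) ^ 2 = 1 ∧
    qf u w x.1 x.2.1 + qf u w x.2.2.1 x.2.2.2 ≤ M} with hT
  have hMu : u 0 ^ 2 + u 1 ^ 2 ≤ M := by
    rw [hM]; unfold qf; nlinarith [sq_nonneg (w 0), sq_nonneg (w 1)]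
  have hMw : w 0 ^ 2 + w 1 ^ 2 ≤ M := by
    rw [hM]; unfold qf; nlinarith [sq_nonneg (u 0), sq_nonneg (u 1)]
  have hM0 : 0 ≤ M := le_trans (by positivity) hMu
  obtain ⟨N, hN⟩ := exists_nat_ge (M / D)
  have hb : ∀ (k : ℤ) (y z : ℝ), 0 ≤ y → y ≤ M → 0 ≤ z → z ≤ M → (k * D) ^ 2 ≤ y * z →
      -(N : ℤ) ≤ k ∧ k ≤ N := by
    intro k y z hy0 hy hz0 hz h
    have h1 : (k * D) ^ 2 ≤ M ^ 2 := by nlinarith
    have h2 := abs_le_of_sq_le_sq' h1 hM0
    rw [div_le_iff₀ hD] at hN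
    constructor
    · have : -(N : ℝ) ≤ k := by
        by_contra hcon
        push Not at hcon
        nlinarith [h2.1]
      exact_mod_cast this
    · have : (k : ℝ) ≤ N := by
        by_contra hcon
        push Not at hcon
        nlinarith [h2.2]
      exact_mod_cast this
  have hfin : T.Finite := by
    refine ((Set.finite_Icc (-(N : ℤ)) N).prod ((Set.finite_Icc (-(N : ℤ)) N).prod
      ((Set.finite_Icc (-(N : ℤ)) N).prod (Set.finite_Icc (-(N : ℤ)) N)))).subset ?_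
    rintro ⟨p, q, r, s⟩ ⟨-, h⟩
    simp only at h
    have h1 : qf u w p q ≤ M := by linarith [hq0 r s]
    have h2 : qf u w r s ≤ M := by linarith [hq0 p q]
    refine ⟨hb p _ _ (hq0 p q) h1 (by positivity) hMw (qf_cauchy u w p q),
      hb q _ _ (hq0 p q) h1 (by positivity) hMu (qf_cauchy' u w p q),
      hb r _ _ (hq0 r s) h2 (by positivity) hMw (qf_cauchy u w r s),
      hb s _ _ (hq0 r s) h2 (by positivity) hMu (qf_cauchy' u w r s)⟩
  have hne : T.Nonempty := ⟨(1, 0, 0, 1), by simp, by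
    show qf u w ((1 : ℤ) : ℝ) ((0 : ℤ) : ℝ) + qf u w ((0 : ℤ) : ℝ) ((1 : ℤ) : ℝ) ≤ M
    rw [hM]; push_cast; exact le_refl _⟩
  obtain ⟨⟨p, q, r, s⟩, ⟨h1, h2⟩, h3⟩ := Set.exists_min_image T
    (fun x => qf u w x.1 x.2.1 + qf u w x.2.2.1 x.2.2.2) hfin hne
  refine ⟨p, q, r, s, h1, fun p' q' r' s' h => ?_⟩
  by_cases hx : qf u w p' q' + qf u w r' s' ≤ M
  · exact h3 (p', q', r', s') ⟨h, hx⟩
  · push Not at hx
    exact le_trans h2 hx.le

/-- every planar lattice has a basis with an angle between 60 and 90 degrees -/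
theorem reduced {u w : Fin 2 → ℝ} (hD : 0 < u 0 * w 1 - u 1 * w 0) :
    ∃ (u' w' : Fin 2 → ℝ) (p q r s : ℤ), (p * s - q * r) ^ 2 = 1 ∧
      (∀ i, u' i = p * u i + q * w i) ∧ (∀ i, w' i = r * u i + s * w i) ∧
      0 ≤ u' 0 * w' 0 + u' 1 * w' 1 ∧ 2 * (u' 0 * w' 0 + u' 1 * w' 1) ≤ u' 0 ^ 2 + u' 1 ^ 2 ∧
      2 * (u' 0 * w' 0 + u' 1 * w' 1) ≤ w' 0 ^ 2 + w' 1 ^ 2 := by
  obtain ⟨p, q, r, s, h1, h2⟩ := reduce hD
  have hm := h2 (p) (q) (r - p) (s - q) (by rw [← h1]; ring)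
  have hp := h2 (p) (q) (r + p) (s + q) (by rw [← h1]; ring)
  have hm' := h2 (p - r) (q - s) (r) (s) (by rw [← h1]; ring)
  have hp' := h2 (p + r) (q + s) (r) (s) (by rw [← h1]; ring)
  unfold qf at hm hp hm' hp'
  push_cast at hm hp hm' hp'
  rcases le_total 0 ((p * u 0 + q * w 0) * (r * u 0 + s * w 0)
      + (p * u 1 + q * w 1) * (r * u 1 + s * w 1)) with h | h
  · refine ⟨fun i => p * u i + q * w i, fun i => r * u i + s * w i, p, q, r, s, h1,
      fun i => rfl, fun i => rfl, h, ?_, ?_⟩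
    · simp only
      nlinarith
    · simp only
      nlinarith
  · refine ⟨fun i => p * u i + q * w i, fun i => ((-r : ℤ) : ℝ) * u i + ((-s : ℤ) : ℝ) * w i,
      p, q, -r, -s, by rw [← h1]; ring, fun i => rfl, fun i => rfl, ?_, ?_, ?_⟩
    · simp only
      push_cast
      nlinarith
    · simp only
      push_cast
      nlinarith
    · simp only
      push_cast
      nlinarith

/-- the deep hole of a planar lattice of least distance `√ρ` -/
theorem hole {u w : Fin 2 → ℝ} (hD : 0 < u 0 * w 1 - u 1 * w 0) {ρ : ℝ} (hρ : 0 < ρ)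
    (hmin : ∀ m n : ℤ, (m ≠ 0 ∨ n ≠ 0) →
      ρ ≤ (m * u 0 + n * w 0) ^ 2 + (m * u 1 + n * w 1) ^ 2) :
    ∃ t : Fin 2 → ℝ, ∀ m n : ℤ,
      ρ / 3 ≤ (t 0 - (m * u 0 + n * w 0)) ^ 2 + (t 1 - (m * u 1 + n * w 1)) ^ 2 := by
  obtain ⟨u', w', p, q, r, s, h1, hu', hw', h2, h3, h4⟩ := reduced hD
  have hε : p * s - q * r = 1 ∨ p * s - q * r = -1 := by
    have h : (p * s - q * r - 1) * (p * s - q * r + 1) = 0 := by linear_combination h1
    rcases mul_eq_zero.1 h with h | h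
    · left; omega
    · right; omega
  have ha : ρ ≤ u' 0 ^ 2 + u' 1 ^ 2 := by
    rw [hu' 0, hu' 1]
    refine hmin p q ?_
    by_contra hcon
    push Not at hcon
    rw [hcon.1, hcon.2] at h1
    simp at h1
  have hc : ρ ≤ w' 0 ^ 2 + w' 1 ^ 2 := by
    rw [hw' 0, hw' 1]
    refine hmin r s ?_
    by_contra hcon
    push Not at hcon
    rw [hcon.1, hcon.2] at h1
    simp at h1
  set a := u' 0 ^ 2 + u' 1 ^ 2 with had
  set c := w' 0 ^ 2 + w' 1 ^ 2 with hcd
  set b := u' 0 * w' 0 + u' 1 * w' 1 with hbd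
  have hΔ : 0 < a * c - b ^ 2 := by nlinarith
  obtain ⟨t, ht⟩ := hole_red (u := u') (w := w') had hcd hbd hΔ h2 h3 h4
  refine ⟨t, fun m n => ?_⟩
  have h5 := circ_min hρ ha hc h2 h3 h4
  rcases hε with h | h
  · have hR : (p : ℝ) * s - q * r = 1 := by exact_mod_cast h
    have h6 := ht (m * s - n * r) (-m * q + n * p)
    rw [hu' 0, hu' 1, hw' 0, hw' 1] at h6
    push_cast at h6
    have e0 : ((m : ℝ) * s - n * r) * (p * u 0 + q * w 0) + (-m * q + n * p) * (r * u 0 + s * w 0)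
        = m * u 0 + n * w 0 := by linear_combination (m * u 0 + n * w 0) * hR
    have e1 : ((m : ℝ) * s - n * r) * (p * u 1 + q * w 1) + (-m * q + n * p) * (r * u 1 + s * w 1)
        = m * u 1 + n * w 1 := by linear_combination (m * u 1 + n * w 1) * hR
    rw [e0, e1] at h6
    linarith
  · have hR : (p : ℝ) * s - q * r = -1 := by exact_mod_cast h
    have h6 := ht (-(m * s - n * r)) (-(-m * q + n * p))
    rw [hu' 0, hu' 1, hw' 0, hw' 1] at h6
    push_cast at h6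
    have e0 : (-((m : ℝ) * s - n * r)) * (p * u 0 + q * w 0)
        + (-(-m * q + n * p)) * (r * u 0 + s * w 0)
        = m * u 0 + n * w 0 := by linear_combination (-(m * u 0 + n * w 0)) * hR
    have e1 : (-((m : ℝ) * s - n * r)) * (p * u 1 + q * w 1)
        + (-(-m * q + n * p)) * (r * u 1 + s * w 1)
        = m * u 1 + n * w 1 := by linear_combination (-(m * u 1 + n * w 1)) * hR
    rw [e0, e1] at h6
    linarith

end Pool.Agent.Y498.ML
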