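import Pool.Agent.TH219.DL.Bridge
import Pool.Agent.Y498.ML.Hole

/-!
# Columns shifted towards the deep hole of the planar lattice
-/

set_option autoImplicit false

namespace Pool.Agent.Y498.ML

open MeasureTheory Filter Topology
open scoped ENNReal
open Pool.Agent.H349R2.Tet
open Pool.Agent.TH219.DL

/-- basis of the lattice of shifted columns -/
def bh (s : ℝ) (t u w : Fin 2 → ℝ) : Fin 3 → V := ![cs s t, cs 0 u, cs 0 w]

theorem dt_bh (s : ℝ) (t u w : Fin 2 → ℝ) : dt (bh s t u w) = s * (u 0 * w 1 - u 1 * w 0) := by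
  unfold dt bh
  rw [Matrix.det_fin_three]
  simp
  ring

theorem hole_packs {K : Set V} {s : ℝ} {t u w : Fin 2 → ℝ} (hs : 0 < s)
    (hK : ∀ x ∈ K, ∀ y ∈ K, (x 0 - y 0) ^ 2 + (x 1 - y 1) ^ 2 + (x 2 - y 2) ^ 2 ≤ 1)
    (hD : 0 < u 0 * w 1 - u 1 * w 0) (hadm : Adm2 (G K 0) u w) (h4 : 1 ≤ 4 * s ^ 2)
    (ht : ∀ m n : ℤ, 1 - s ^ 2 ≤
      (t 0 - (m * u 0 + n * w 0)) ^ 2 + (t 1 - (m * u 1 + n * w 1)) ^ 2) :
    Packs K (bh s t u w) := by
  rw [packs_iff]
  refine ⟨?_, ?_⟩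
  · rw [dt_bh]; positivity
  · rintro v ⟨z, rfl⟩ hv0 ⟨x, hx, hxv⟩
    set v : V := ∑ i, (z i : ℝ) • bh s t u w i with hv
    have v0 : v 0 = z 0 * s := by
      rw [hv]; simp [Fin.sum_univ_three, bh]
    have v1 : v 1 = z 0 * t 0 + (z 1 * u 0 + z 2 * w 0) := by
      rw [hv]; simp [Fin.sum_univ_three, bh]; ring
    have v2 : v 2 = z 0 * t 1 + (z 1 * u 1 + z 2 * w 1) := by
      rw [hv]; simp [Fin.sum_univ_three, bh]; ring
    by_cases hz0 : z 0 = 0
    · have h12 : z 1 ≠ 0 ∨ z 2 ≠ 0 := by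
        by_contra hcon
        push Not at hcon
        apply hv0
        funext i
        fin_cases i
        · show v 0 = 0
          rw [v0, hz0]; simp
        · show v 1 = 0
          rw [v1, hz0, hcon.1, hcon.2]; simp
        · show v 2 = 0
          rw [v2, hz0, hcon.1, hcon.2]; simp
      obtain ⟨p, q, hpq, hf⟩ := hadm _ _ h12
      obtain ⟨ε, hε, hxε⟩ := interior_push hx (cs 0 ![p, q])
      have h1 : pr (x + ε • cs 0 ![p, q]) ∈ G K 0 := by
        rw [G_zero]; exact ⟨_, hxε, rfl⟩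
      have h2 : pr (x - v) ∈ G K 0 := by
        rw [G_zero]; exact ⟨_, interior_subset hxv, rfl⟩
      have h3 := hf _ h1 _ h2
      simp only [pr_zero, pr_one, Pi.add_apply, Pi.smul_apply, Pi.sub_apply, smul_eq_mul,
        cs_one, cs_two, Matrix.cons_val_zero, Matrix.cons_val_one, v1, v2, hz0] at h3
      push_cast at h3
      have h4 : 0 < p ^ 2 + q ^ 2 := by
        rcases hpq with h | h
        · have := sq_pos_of_ne_zero h; positivity
        · have := sq_pos_of_ne_zero h; positivity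
      nlinarith [mul_pos hε h4]
    · have hn : 1 ≤ v 0 ^ 2 + v 1 ^ 2 + v 2 ^ 2 := by
        by_cases h1 : z 0 = 1
        · have h := ht (-z 1) (-z 2)
          push_cast at h
          have e : v 0 ^ 2 + v 1 ^ 2 + v 2 ^ 2 = s ^ 2 + ((t 0 - (-z 1 * u 0 + -z 2 * w 0)) ^ 2
              + (t 1 - (-z 1 * u 1 + -z 2 * w 1)) ^ 2) := by
            rw [v0, v1, v2, h1]; push_cast; ring
          rw [e]; linarith
        · by_cases h2 : z 0 = -1
          · have h := ht (z 1) (z 2)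
            have e : v 0 ^ 2 + v 1 ^ 2 + v 2 ^ 2 = s ^ 2 + ((t 0 - (z 1 * u 0 + z 2 * w 0)) ^ 2
                + (t 1 - (z 1 * u 1 + z 2 * w 1)) ^ 2) := by
              rw [v0, v1, v2, h2]; push_cast; ring
            rw [e]; linarith
          · have h3 : 4 ≤ z 0 ^ 2 := by
              rcases lt_or_ge (z 0) 0 with h | h
              · have : z 0 ≤ -2 := by omega
                nlinarith
              · have : 2 ≤ z 0 := by omega
                nlinarith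
            have h3' : (4 : ℝ) ≤ (z 0 : ℝ) ^ 2 := by exact_mod_cast h3
            rw [v0, mul_pow]
            nlinarith [sq_nonneg (v 1), sq_nonneg (v 2), sq_nonneg s]
      obtain ⟨ε, hε, hxε⟩ := interior_push hx v
      have h := hK _ hxε _ (interior_subset hxv)
      simp only [Pi.add_apply, Pi.smul_apply, Pi.sub_apply, smul_eq_mul] at h
      have e : (x 0 + ε * v 0 - (x 0 - v 0)) ^ 2 + (x 1 + ε * v 1 - (x 1 - v 1)) ^ 2
          + (x 2 + ε * v 2 - (x 2 - v 2)) ^ 2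
          = (1 + ε) ^ 2 * (v 0 ^ 2 + v 1 ^ 2 + v 2 ^ 2) := by ring
      rw [e] at h
      nlinarith [sq_nonneg ε]

/-- a body of diameter one with a vertical chord of length one and a wide shadow -/
theorem geo_low {K : Set V} (hK : IsCompact K) (hc : Convex ℝ K) (hne : (interior K).Nonempty)
    (hd : ∀ x ∈ K, ∀ y ∈ K, (x 0 - y 0) ^ 2 + (x 1 - y 1) ^ 2 + (x 2 - y 2) ^ 2 ≤ 1)
    {x0 : Fin 2 → ℝ} (hx0 : x0 ∈ G K 1)
    (hw : ∀ p q : ℝ, ∃ x ∈ K, ∃ y ∈ K,
      p ^ 2 + q ^ 2 ≤ 5 / 2 * (p * (x 1 - y 1) + q * (x 2 - y 2)) ^ 2) :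
    ∃ b : Fin 3 → V, Packs K b ∧
      ENNReal.ofReal (2 / 9 * √(15 / 13)) * ENNReal.ofReal |dt b| ≤ volume K := by
  obtain ⟨u, w, hD, hDle, hadm⟩ := fary (shadow_convex hc) (shadow_compact hK)
    (shadow_interior hne)
  have hmin : ∀ m n : ℤ, (m ≠ 0 ∨ n ≠ 0) →
      (2 / 5 : ℝ) ≤ (m * u 0 + n * w 0) ^ 2 + (m * u 1 + n * w 1) ^ 2 := by
    intro m n hmn
    obtain ⟨p, q, hpq, hf⟩ := hadm m n hmn
    obtain ⟨x, hx, y, hy, hxy⟩ := hw p q
    have hgx : pr x ∈ G K 0 := by rw [G_zero]; exact ⟨x, hx, rfl⟩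
    have hgy : pr y ∈ G K 0 := by rw [G_zero]; exact ⟨y, hy, rfl⟩
    have h1 := hf _ hgx _ hgy
    have h2 := hf _ hgy _ hgx
    simp only [pr_zero, pr_one] at h1 h2
    set d := p * (x 1 - y 1) + q * (x 2 - y 2) with hdd
    set Z0 := (m : ℝ) * u 0 + n * w 0 with hZ0
    set Z1 := (m : ℝ) * u 1 + n * w 1 with hZ1
    have h2' : -d ≤ p * Z0 + q * Z1 := by rw [hdd]; linarith
    have h3 : d ^ 2 ≤ (p * Z0 + q * Z1) ^ 2 := sq_le_sq' (by linarith) h1
    have h4 : (p * Z0 + q * Z1) ^ 2 ≤ (p ^ 2 + q ^ 2) * (Z0 ^ 2 + Z1 ^ 2) := by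
      nlinarith [sq_nonneg (p * Z1 - q * Z0)]
    have h5 : 0 < p ^ 2 + q ^ 2 := by
      rcases hpq with h | h
      · have := sq_pos_of_ne_zero h; positivity
      · have := sq_pos_of_ne_zero h; positivity
    by_contra hcon
    push Not at hcon
    nlinarith
  obtain ⟨t, ht⟩ := hole hD (by norm_num : (0 : ℝ) < 2 / 5) hmin
  set s : ℝ := √(13 / 15) with hs
  have hs2 : s ^ 2 = 13 / 15 := Real.sq_sqrt (by norm_num)
  have hs0 : 0 < s := Real.sqrt_pos.2 (by norm_num)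
  have hpk : Packs K (bh s t u w) := by
    refine hole_packs hs0 hd hD hadm (by rw [hs2]; norm_num) fun m n => ?_
    have := ht m n
    rw [hs2]
    linarith
  refine ⟨bh s t u w, hpk, ?_⟩
  have hss : √(15 / 13) * s = 1 := by
    rw [hs, ← Real.sqrt_mul (by norm_num)]
    norm_num
  rw [dt_bh, abs_of_pos (mul_pos hs0 hD), ← ENNReal.ofReal_mul (by positivity)]
  have e1 : 2 / 9 * √(15 / 13) * (s * (u 0 * w 1 - u 1 * w 0)) = 2 / 9 * (u 0 * w 1 - u 1 * w 0) := by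
    linear_combination (2 / 9 * (u 0 * w 1 - u 1 * w 0)) * hss
  rw [e1]
  have hcone := cone hK hc one_pos hx0
  calc ENNReal.ofReal (2 / 9 * (u 0 * w 1 - u 1 * w 0))
      = ENNReal.ofReal (2 / 9) * ENNReal.ofReal (u 0 * w 1 - u 1 * w 0) :=
        ENNReal.ofReal_mul (by norm_num)
    _ ≤ ENNReal.ofReal (2 / 9) * (ENNReal.ofReal (3 / 2) * volume (G K 0)) := by gcongr
    _ = ENNReal.ofReal (1 / 3) * volume (G K 0) := by
        rw [← mul_assoc, ← ENNReal.ofReal_mul (by norm_num)]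
        congr 2
        norm_num
    _ ≤ volume K := hcone

end Pool.Agent.Y498.ML
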