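import Pool.Agent.W569.John

/-!
# The ellipsoid of least volume containing a symmetric convex body
-/

set_option autoImplicit false

open MeasureTheory Matrix Filter Topology Set

namespace Pool.Agent.Y498.ML

/-- the ellipsoid of least volume, with its contact points -/
theorem loewner {n : ℕ} (hn : 0 < n) {D : Set (Fin n → ℝ)} (hc : IsCompact D) (hv : Convex ℝ D)
    (hs : ∀ x ∈ D, -x ∈ D) (h0 : D ∈ 𝓝 0) :
    ∃ L : Matrix (Fin n) (Fin n) ℝ, 0 < L.det ∧ (∀ x ∈ D, (L *ᵥ x) ⬝ᵥ (L *ᵥ x) ≤ 1) ∧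
      ∃ (ι : Type) (_ : Fintype ι) (v : ι → Fin n → ℝ) (c : ι → ℝ), (∀ i, 0 < c i) ∧
        (∀ i, v i ⬝ᵥ v i = 1) ∧ ∑ i, c i • vecMulVec (v i) (v i) = 1 ∧
        ∀ i, ∃ x ∈ D, L *ᵥ x = v i := by
  set Q : Set (Fin n → ℝ) := {y | ∀ x ∈ D, x ⬝ᵥ y ≤ 1} with hQ
  obtain ⟨r, hr, hb⟩ := Metric.mem_nhds_iff.1 h0
  obtain ⟨R, hR0, hR⟩ := hc.isBounded.exists_pos_norm_le
  have hQc : IsClosed Q := by
    have : Q = ⋂ x : Fin n → ℝ, ⋂ _ : x ∈ D, {y | x ⬝ᵥ y ≤ 1} := by
      ext v; simp [hQ]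
    rw [this]
    refine isClosed_iInter fun y => isClosed_iInter fun _ => isClosed_le ?_ continuous_const
    exact continuous_const.dotProduct continuous_id
  have hQb : ∀ y ∈ Q, ∀ i, |y i| ≤ 2 / r := by
    intro y hy i
    have hmem : ∀ s : ℝ, |s| ≤ 1 → (Pi.single i (s * (r / 2)) : Fin n → ℝ) ∈ D := by
      intro s hs1
      apply hb
      rw [mem_ball_zero_iff, pi_norm_lt_iff hr]
      intro j
      by_cases hji : j = i
      · subst hji
        rw [Pi.single_eq_same, Real.norm_eq_abs, abs_mul, abs_of_pos (half_pos hr)]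
        nlinarith
      · rw [Pi.single_eq_of_ne hji, norm_zero]; exact hr
    have h1 := hy _ (hmem 1 (by simp))
    have h2 := hy _ (hmem (-1) (by simp))
    rw [single_dotProduct] at h1 h2
    rw [abs_le, le_div_iff₀ hr, neg_le_iff_add_nonneg, ← sub_nonneg]
    constructor
    · rw [sub_zero]
      have : 0 ≤ (y i * r + 2) / r := by
        apply div_nonneg _ hr.le
        nlinarith
      have e : (y i * r + 2) / r = y i + 2 / r := by field_simp
      rw [← e]; exact this
    · nlinarith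
  have hQk : IsCompact Q := by
    apply Metric.isCompact_of_isClosed_isBounded hQc
    refine (Metric.isBounded_closedBall (x := (0 : Fin n → ℝ)) (r := 2 / r)).subset ?_
    intro y hy
    rw [mem_closedBall_zero_iff, pi_norm_le_iff_of_nonneg (by positivity)]
    exact fun i => hQb y hy i
  have hQv : Convex ℝ Q := by
    intro y hy z hz a b ha hb' hab x hx
    rw [dotProduct_add, dotProduct_smul, dotProduct_smul, smul_eq_mul, smul_eq_mul]
    have h1 := hy x hx
    have h2 := hz x hx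
    nlinarith
  have hQs : ∀ x ∈ Q, -x ∈ Q := by
    intro y hy x hx
    have h1 := hy (-x) (hs x hx)
    rw [neg_dotProduct] at h1
    rwa [dotProduct_neg]
  have hQ0 : Q ∈ 𝓝 0 := by
    rw [Metric.mem_nhds_iff]
    have hnR : 0 < (n : ℝ) * R := by positivity
    refine ⟨1 / (n * R), by positivity, ?_⟩
    intro y hy x hx
    rw [mem_ball_zero_iff] at hy
    have h1 : x ⬝ᵥ y ≤ ∑ _i : Fin n, R * (1 / (n * R)) := by
      unfold dotProduct
      apply Finset.sum_le_sum
      intro i _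
      have h2 : |x i| ≤ R := (norm_le_pi_norm x i).trans (hR x hx)
      have h3 : |y i| ≤ 1 / (n * R) := (norm_le_pi_norm y i).trans hy.le
      calc x i * y i ≤ |x i * y i| := le_abs_self _
        _ = |x i| * |y i| := abs_mul _ _
        _ ≤ _ := mul_le_mul h2 h3 (abs_nonneg _) hR0.le
    refine h1.trans (le_of_eq ?_)
    rw [Finset.sum_const, Finset.card_univ, Fintype.card_fin, nsmul_eq_mul]
    field_simp
  obtain ⟨S, hdet, hS, ι, hι, v, c, hc0, hv1, hI, hle⟩ := W569.john hn hQk hQv hQs hQ0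
  have hSx : ∀ x y : Fin n → ℝ, x ⬝ᵥ (S *ᵥ y) = (Sᵀ *ᵥ x) ⬝ᵥ y := by
    intro x y
    rw [dotProduct_mulVec, mulVec_transpose]
  refine ⟨Sᵀ, by rwa [det_transpose], ?_, ι, hι, v, c, hc0, hv1, hI, ?_⟩
  · intro x hx
    set z := Sᵀ *ᵥ x with hz
    have hnn : 0 ≤ z ⬝ᵥ z := Finset.sum_nonneg fun i _ => mul_self_nonneg _
    rcases hnn.eq_or_lt with h | h
    · rw [← h]; exact zero_le_one
    set s := √(z ⬝ᵥ z) with hsdef
    have hs0 : 0 < s := Real.sqrt_pos.2 h
    have hss : s * s = z ⬝ᵥ z := Real.mul_self_sqrt hnn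
    have h1 := hS (s⁻¹ • z) (by
      rw [smul_dotProduct, dotProduct_smul, smul_eq_mul, smul_eq_mul, ← hss]
      field_simp
      exact le_refl _) x hx
    rw [hSx, ← hz, dotProduct_smul, smul_eq_mul, ← hss] at h1
    have h2 : s⁻¹ * (s * s) = s := by field_simp
    rw [h2] at h1
    rw [← hss]
    nlinarith
  · intro i
    by_contra hnot
    have hnot' : v i ∉ (fun x => Sᵀ *ᵥ x) '' D := fun ⟨x, hx, hxe⟩ => hnot ⟨x, hx, hxe⟩
    have hic : IsCompact ((fun x => Sᵀ *ᵥ x) '' D) :=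
      hc.image (continuous_const.matrix_mulVec continuous_id)
    have hiv : Convex ℝ ((fun x => Sᵀ *ᵥ x) '' D) := by
      have : (fun x => Sᵀ *ᵥ x) '' D = (Matrix.toLin' Sᵀ) '' D := by
        apply Set.image_congr
        intro x _
        rw [Matrix.toLin'_apply]
      rw [this]
      exact hv.linear_image _
    obtain ⟨g, u, hgu, hux⟩ := geometric_hahn_banach_closed_point hiv hic.isClosed hnot'
    obtain ⟨a, ha⟩ := W569.exists_vec g
    have hu0 : 0 < u := by
      have h00 : (0 : Fin n → ℝ) ∈ D := mem_of_mem_nhds h0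
      have := hgu 0 ⟨0, h00, by simp⟩
      simpa using this
    have h1 : S *ᵥ (u⁻¹ • a) ∈ Q := by
      intro x hx
      rw [hSx, dotProduct_smul, smul_eq_mul, inv_mul_le_iff₀ hu0, mul_one]
      have h2 := hgu _ ⟨x, hx, rfl⟩
      rw [ha, dotProduct_comm] at h2
      exact h2.le
    have h3 := (abs_le.1 (hle i _ h1)).2
    rw [dotProduct_smul, smul_eq_mul, inv_mul_le_iff₀ hu0, mul_one, dotProduct_comm] at h3
    rw [ha] at hux
    linarith

end Pool.Agent.Y498.ML
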