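import Pool.Agent.Y498.ML.Geo
import Pool.Agent.Y498.ML.Weight
import Pool.Agent.Y498.ML.Lo

/-!
# A lower bound for the lattice packing density of every convex body in space
-/

set_option autoImplicit false

namespace Pool.Agent.Y498.ML

open MeasureTheory Filter Topology Matrix
open scoped ENNReal
open Pool.Agent.H349R2.Tet
open Pool.Agent.TH219.DL

/-- a linear isometry moving a unit vector to the first basis vector -/
theorem rot {e : V} (he : e ⬝ᵥ e = 1) : ∃ O : Matrix (Fin 3) (Fin 3) ℝ,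
    Oᵀ * O = 1 ∧ O *ᵥ e = ![1, 0, 0] := by
  set w : V := e - ![1, 0, 0] with hw
  by_cases hw0 : w ⬝ᵥ w = 0
  · have h : w = 0 := dotProduct_self_eq_zero.1 hw0
    refine ⟨1, by simp, ?_⟩
    rw [one_mulVec]
    exact sub_eq_zero.1 h
  · set k : ℝ := 2 / (w ⬝ᵥ w) with hk
    have hk1 : k * (w ⬝ᵥ w) = 2 := by rw [hk]; field_simp
    refine ⟨1 - k • vecMulVec w w, ?_, ?_⟩
    · have hT : (1 - k • vecMulVec w w)ᵀ = 1 - k • vecMulVec w w := by
        rw [transpose_sub, transpose_one, transpose_smul]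
        congr 2
        ext i j
        simp [vecMulVec_apply, mul_comm]
      rw [hT]
      have hmul : vecMulVec w w * vecMulVec w w = (w ⬝ᵥ w) • vecMulVec w w := by
        ext i j
        simp only [mul_apply, vecMulVec_apply, Matrix.smul_apply, smul_eq_mul, dotProduct,
          Finset.sum_mul]
        exact Finset.sum_congr rfl fun _ _ => by ring
      have : (1 - k • vecMulVec w w) * (1 - k • vecMulVec w w)
          = 1 - (2 * k) • vecMulVec w w + (k * k) • (vecMulVec w w * vecMulVec w w) := by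
        rw [sub_mul, mul_sub, mul_sub, one_mul, mul_one, one_mul, smul_mul_smul_comm, two_mul,
          add_smul]
        abel
      rw [this, hmul, smul_smul]
      have e : k * k * (w ⬝ᵥ w) = 2 * k := by rw [mul_assoc, hk1]; ring
      rw [e]
      simp
    · have h1 : w ⬝ᵥ w = 2 * (1 - e 0) := by
        have h2 : e 0 * e 0 + e 1 * e 1 + e 2 * e 2 = 1 := by
          rw [← he]; simp [dotProduct, Fin.sum_univ_three]
        simp only [hw, dotProduct, Fin.sum_univ_three, Pi.sub_apply]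
        simp
        linear_combination h2
      have h3 : w ⬝ᵥ e = 1 - e 0 := by
        rw [hw, sub_dotProduct, he]
        simp [dotProduct, Fin.sum_univ_three]
      have h4 : k * (w ⬝ᵥ e) = 1 := by
        rw [h3]
        have : k * (2 * (1 - e 0)) = 2 := by rw [← h1]; exact hk1
        linarith
      rw [sub_mulVec, one_mulVec, smul_mulVec]
      have h5 : vecMulVec w w *ᵥ e = (w ⬝ᵥ e) • w := by
        ext i
        simp only [mulVec, dotProduct, vecMulVec_apply, Pi.smul_apply, smul_eq_mul,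
          Finset.sum_mul]
        exact Finset.sum_congr rfl fun _ _ => by ring
      rw [h5, smul_smul, h4, one_smul, hw]
      abel

/-- every convex body has a linear image of diameter one with a vertical chord of length one and a
wide shadow -/
theorem normal {K : Set V} (hK : Body K) : ∃ L : V ≃ₗ[ℝ] V,
    (∀ x ∈ L '' K, ∀ y ∈ L '' K, (x 0 - y 0) ^ 2 + (x 1 - y 1) ^ 2 + (x 2 - y 2) ^ 2 ≤ 1) ∧
    (∃ x0, x0 ∈ G (L '' K) 1) ∧
    ∀ p q : ℝ, ∃ x ∈ L '' K, ∃ y ∈ L '' K,
      p ^ 2 + q ^ 2 ≤ 5 / 2 * (p * (x 1 - y 1) + q * (x 2 - y 2)) ^ 2 := by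
  obtain ⟨hc, hv, hne⟩ := hK
  set D : Set V := (fun p : V × V => p.1 - p.2) '' (K ×ˢ K) with hD
  have hDc : IsCompact D := (hc.prod hc).image (continuous_fst.sub continuous_snd)
  have hDv : Convex ℝ D := by
    rintro _ ⟨⟨a, b⟩, ⟨ha, hb⟩, rfl⟩ _ ⟨⟨a', b'⟩, ⟨ha', hb'⟩, rfl⟩ s t hs ht hst
    refine ⟨(s • a + t • a', s • b + t • b'), ⟨hv ha ha' hs ht hst, hv hb hb' hs ht hst⟩, ?_⟩
    simp only [smul_sub]
    abel
  have hDs : ∀ x ∈ D, -x ∈ D := by
    rintro _ ⟨⟨a, b⟩, ⟨ha, hb⟩, rfl⟩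
    exact ⟨(b, a), ⟨hb, ha⟩, by simp⟩
  have hD0 : D ∈ 𝓝 (0 : V) := by
    obtain ⟨z, hz⟩ := hne
    have h1 : Tendsto (fun x : V => z + x) (𝓝 0) (𝓝 z) := by
      have : Continuous fun x : V => z + x := by fun_prop
      simpa using this.tendsto 0
    have h2 := h1.eventually (isOpen_interior.mem_nhds hz)
    refine mem_of_superset h2 fun x hx => ?_
    exact ⟨(z + x, z), ⟨interior_subset hx, interior_subset hz⟩, by simp⟩
  obtain ⟨L, hdet, hL1, ι, hι, v, c, hcp, hvu, hsum, hcon⟩ := loewner (by norm_num) hDc hDv hDs hD0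
  obtain ⟨i, hi⟩ := weight hcp hvu hsum
  obtain ⟨O, hO1, hO2⟩ := rot (hvu i)
  have hOd : ∀ x y : V, (O *ᵥ x) ⬝ᵥ (O *ᵥ y) = x ⬝ᵥ y := by
    intro x y
    rw [dotProduct_mulVec, ← mulVec_transpose, mulVec_mulVec, hO1, one_mulVec]
  have hOdet : O.det ≠ 0 := by
    intro h
    have := congrArg Matrix.det hO1
    rw [det_mul, det_transpose, h] at this
    simp at this
  have hMdet : LinearMap.det (Matrix.toLin' (O * L)) ≠ 0 := by
    rw [LinearMap.det_toLin', det_mul]
    exact mul_ne_zero hOdet hdet.ne'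
  set E := LinearMap.equivOfDetNeZero _ hMdet with hE
  have hEa : ∀ x : V, E x = O *ᵥ (L *ᵥ x) := by
    intro x
    show Matrix.toLin' (O * L) x = _
    rw [toLin'_apply, ← mulVec_mulVec]
  refine ⟨E, ?_, ?_, ?_⟩
  · rintro _ ⟨x, hx, rfl⟩ _ ⟨y, hy, rfl⟩
    have h1 := hL1 (x - y) ⟨(x, y), ⟨hx, hy⟩, rfl⟩
    rw [← hOd, ← hEa, map_sub] at h1
    simp only [dotProduct, Fin.sum_univ_three, Pi.sub_apply] at h1
    linarith
  · obtain ⟨_, ⟨⟨a, b⟩, ⟨ha, hb⟩, rfl⟩, hab⟩ := hcon i
    simp only at hab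
    have h1 : E a - E b = ![1, 0, 0] := by
      rw [← map_sub, hEa, hab, hO2]
    refine ⟨pr (E b), E b 0, ?_, ?_⟩
    · rw [cs_pr]; exact ⟨b, hb, rfl⟩
    · have e : cs (E b 0 + 1) (pr (E b)) = E a := by
        have h0 := congrFun h1 0
        have h2 := congrFun h1 1
        have h3 := congrFun h1 2
        simp only [Pi.sub_apply, cons_val_zero, cons_val_one, cons_val] at h0 h2 h3
        symm
        apply cs_ext
        · linarith
        · simp only [pr_zero]; linarith
        · simp only [pr_one]; linarith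
      rw [e]
      exact ⟨a, ha, rfl⟩
  · intro p q
    set f : V := ![0, p, q] with hf
    set x : V := Oᵀ *ᵥ f with hx
    have hOO : O * Oᵀ = 1 := mul_eq_one_comm.1 hO1
    have hdot : ∀ y : V, x ⬝ᵥ y = f ⬝ᵥ (O *ᵥ y) := by
      intro y
      rw [hx, mulVec_transpose, dotProduct_mulVec]
    have hxi : x ⬝ᵥ v i = 0 := by
      rw [hdot, hO2, hf]
      simp [dotProduct, Fin.sum_univ_three]
    have hxx : x ⬝ᵥ x = p ^ 2 + q ^ 2 := by
      rw [hdot, hx, mulVec_mulVec, hOO, one_mulVec, hf]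
      simp [dotProduct, Fin.sum_univ_three]
      ring
    obtain ⟨j, hj⟩ := hi x hxi
    obtain ⟨_, ⟨⟨a, b⟩, ⟨ha, hb⟩, rfl⟩, hab⟩ := hcon j
    simp only at hab
    refine ⟨E a, ⟨a, ha, rfl⟩, E b, ⟨b, hb, rfl⟩, ?_⟩
    rw [← hxx]
    refine hj.trans (le_of_eq ?_)
    rw [← hab, hdot, ← hEa, map_sub, hf]
    simp [dotProduct, Fin.sum_univ_three]

/-- every convex body in space has a lattice packing of density at least `(2/9)√(15/13)` -/
theorem low {K : Set V} (hK : Body K) : ENNReal.ofReal (2 / 9 * √(15 / 13)) ≤ dL K := by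
  obtain ⟨L, h1, ⟨x0, h2⟩, h3⟩ := normal hK
  obtain ⟨hc, hv, hne⟩ := hK
  have himg : (L '' K) = (fun x => L x + 0) '' K := by
    apply Set.image_congr
    intro x _
    simp
  have hc' : IsCompact (L '' K) := hc.image (LinearMap.continuous_of_finiteDimensional L.toLinearMap)
  have hv' : Convex ℝ (L '' K) := hv.linear_image L.toLinearMap
  have hne' : (interior (L '' K)).Nonempty := by
    rw [himg, pack_interior_image]
    exact hne.image _
  obtain ⟨b, hb1, hb2⟩ := geo_low hc' hv' hne' h1 h2 h3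
  set b' : Fin 3 → V := fun i => L.symm (b i) with hb'
  have hbb : (fun i => L (b' i)) = b := by
    funext i
    simp [hb']
  have hpk : Packs K b' := by
    rw [← packs_image K L 0 b', hbb, ← himg]
    exact hb1
  have hb0 : dt b ≠ 0 := ((packs_iff _ _).1 hb1).1
  have hb0' : dt b' ≠ 0 := ((packs_iff _ _).1 hpk).1
  rw [dL_eq]
  have hle : dens K b' ≤ deltaL K := by
    unfold deltaL
    exact le_iSup₂_of_le b' hpk le_rfl
  refine le_trans ?_ hle
  rw [dens_eq b' ((dt_ne_zero_iff b').1 hb0') _ hc, ← ratio_image K L 0 b' hb0', hbb, ← himg]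
  rw [ENNReal.le_div_iff_mul_le (Or.inl (by
    rw [ne_eq, ENNReal.ofReal_eq_zero, not_le]; exact abs_pos.2 hb0))
    (Or.inl ENNReal.ofReal_ne_top)]
  exact hb2

end Pool.Agent.Y498.ML
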